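import Pool.Agent.H14R2.RC.Defs2
import Pool.Agent.H92R2.RC.TYPES
import Pool.Agent.H120R2.RC.CHAR

/-!
Number of types of irreducible subspaces of `Lvl j n` (project RC2 of helper14).
-/

namespace RC14
open scoped InnerProductSpace ComplexConjugate
open Finset

namespace TYPESLVL

open TYPES

section gen

variable {G : Type*} [Group G] [Fintype G]
variable {V : Type*} [NormedAddCommGroup V] [InnerProductSpace ℂ V] [FiniteDimensional ℂ V]

/-- `TYPES` with an abstract bound on the number of types. -/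
theorem types_gen (ρ : G →* (V ≃ₗᵢ[ℂ] V)) (M : Submodule ℂ V) (hM : Inv ρ M) (B : ℕ)
    (hB : ∀ (N : ℕ) (W : Fin N → Submodule ℂ V), (∀ i, Irr ρ (W i)) → (∀ i, W i ≤ M) →
      (∀ i j, i ≠ j → ¬ Iso ρ (W i) (W j)) → N ≤ B) :
    ∃ (N : ℕ) (W : Fin N → Submodule ℂ V), N ≤ B ∧
      (∀ i, Irr ρ (W i) ∧ W i ≤ M) ∧
      ∀ (r : ℕ) (x : Fin r → G) (w : Fin r → ℝ) (c : ℝ), (∀ i, 0 ≤ w i) →
        (∀ i, ∀ v ∈ W i, c * ‖v‖ ^ 2 ≤ ∑ t, w t * ‖ρ (x t) v - v‖ ^ 2) →
        ∀ v ∈ M, c * ‖v‖ ^ 2 ≤ ∑ t, w t * ‖ρ (x t) v - v‖ ^ 2 := by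
  classical
  obtain ⟨K, U, -, hU, hUM⟩ := DECOMP ρ M hM
  let fam : Finset (Finset (Fin K)) := (Finset.univ : Finset (Finset (Fin K))).filter fun S =>
    ∀ i ∈ S, ∀ j ∈ S, i ≠ j → ¬ Iso ρ (U i) (U j)
  have hfam : fam.Nonempty := ⟨∅, by simp [fam]⟩
  obtain ⟨S, hS, hmax⟩ := Finset.exists_max_image fam Finset.card hfam
  have hS' : ∀ i ∈ S, ∀ j ∈ S, i ≠ j → ¬ Iso ρ (U i) (U j) := (Finset.mem_filter.mp hS).2
  have hrep : ∀ i, ∃ j ∈ S, Iso ρ (U j) (U i) := by
    intro i
    by_cases hi : i ∈ S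
    · exact ⟨i, hi, Iso.refl (hU i).1⟩
    · by_contra hcon
      push Not at hcon
      have h1 : insert i S ∈ fam := by
        refine Finset.mem_filter.mpr ⟨Finset.mem_univ _, ?_⟩
        intro a ha b hb hab hiso
        rcases Finset.mem_insert.mp ha with ha | ha
        · rcases Finset.mem_insert.mp hb with hb | hb
          · exact hab (ha.trans hb.symm)
          · rw [ha] at hiso
            exact hcon b hb (hiso.symm (hU _).1)
        · rcases Finset.mem_insert.mp hb with hb | hb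
          · rw [hb] at hiso
            exact hcon a ha hiso
          · exact hS' a ha b hb hab hiso
      have h2 := hmax _ h1
      rw [Finset.card_insert_of_notMem hi] at h2
      omega
  let f : Fin S.card → Fin K := fun l => (S.equivFin.symm l : Fin K)
  have hf : Function.Injective f := fun a b hab => S.equivFin.symm.injective (Subtype.ext hab)
  refine ⟨S.card, fun l => U (f l), ?_, fun l => hU (f l), ?_⟩
  · refine hB _ (fun l => U (f l)) (fun l => (hU _).1) (fun l => (hU _).2) ?_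
    intro i j hij
    exact hS' _ (S.equivFin.symm i).2 _ (S.equivFin.symm j).2 (fun h => hij (hf h))
  · intro r x w c hw hc
    refine hUM r x w c hw ?_
    intro i
    obtain ⟨j, hj, hiso⟩ := hrep i
    have hj' : f (S.equivFin ⟨j, hj⟩) = j := by
      show ((S.equivFin.symm (S.equivFin ⟨j, hj⟩) : S) : Fin K) = j
      rw [Equiv.symm_apply_apply]
    refine transfer (hU j).1 (hU i).1 hiso r x w c ?_
    have := hc (S.equivFin ⟨j, hj⟩)
    simp only [hj'] at this
    exact this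

end gen

variable {j n : ℕ}

/-- composing a tuple with a permutation of the coordinates -/
def rt (κ : Equiv.Perm (Fin j)) (a : Tup j n) : Tup j n := κ.toEmbedding.trans a

@[simp] lemma rt_apply (κ : Equiv.Perm (Fin j)) (a : Tup j n) (l : Fin j) :
    rt κ a l = a (κ l) := rfl

lemma rt_mul (κ μ : Equiv.Perm (Fin j)) (a : Tup j n) : rt (κ * μ) a = rt μ (rt κ a) := by
  ext l; simp

lemma mv_rt (g : Equiv.Perm (Fin n)) (κ : Equiv.Perm (Fin j)) (a : Tup j n) :
    mv g (rt κ a) = rt κ (mv g a) := by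
  ext l; simp

/-- `rt` as a permutation of the set of tuples -/
def rtE (κ : Equiv.Perm (Fin j)) : Equiv.Perm (Tup j n) where
  toFun := rt κ⁻¹
  invFun := rt κ
  left_inv a := by ext; simp
  right_inv a := by ext; simp

/-- the right action of the symmetric group on the coordinates -/
noncomputable def rr (j n : ℕ) : Equiv.Perm (Fin j) →* (V j n ≃ₗᵢ[ℂ] V j n) where
  toFun κ := LinearIsometryEquiv.piLpCongrLeft 2 ℂ ℂ (rtE κ)
  map_one' := by
    ext f a
    simp only [rtE, LinearIsometryEquiv.piLpCongrLeft_apply, Equiv.piCongrLeft'_apply]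
    rfl
  map_mul' g h := by
    ext f a
    simp only [rtE, LinearIsometryEquiv.piLpCongrLeft_apply, Equiv.piCongrLeft'_apply]
    rfl

lemma rr_apply (κ : Equiv.Perm (Fin j)) (f : V j n) (a : Tup j n) :
    rr j n κ f a = f (rt κ a) := by
  simp [rr, rtE, LinearIsometryEquiv.piLpCongrLeft_apply, Equiv.piCongrLeft', Equiv.symm]

lemma ext0_rr (κ : Equiv.Perm (Fin j)) (f : V j n) (φ : Fin j → Fin n) :
    ext0 (rr j n κ f) φ = ext0 f (φ ∘ κ) := by
  by_cases h : Function.Injective φ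
  · have h2 : Function.Injective (φ ∘ κ) := h.comp κ.injective
    have e1 : ext0 (rr j n κ f) φ = rr j n κ f ⟨φ, h⟩ := ext0_inj _ ⟨φ, h⟩
    have e2 : ext0 f (φ ∘ κ) = f ⟨_, h2⟩ := ext0_inj f ⟨_, h2⟩
    rw [e1, e2, rr_apply]
    rfl
  · have h2 : ¬ Function.Injective (φ ∘ κ) := by
      intro h3
      apply h
      have h4 := h3.comp κ⁻¹.injective
      convert h4 using 1
      ext t
      simp
    rw [ext0_not _ h, ext0_not _ h2]

lemma Lvl_rr (j n : ℕ) : Inv (rr j n) (Lvl j n) := by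
  intro κ f hf
  rw [mem_Lvl] at hf ⊢
  intro φ l
  rw [← hf (φ ∘ κ) (κ⁻¹ l)]
  refine Finset.sum_congr rfl fun y _ => ?_
  rw [ext0_rr]
  congr 1
  funext t
  by_cases h : t = κ⁻¹ l
  · subst h; simp
  · have h' : κ t ≠ l := by
      rintro rfl
      exact h (by simp)
    rw [Function.comp_apply, Function.update_of_ne h, Function.update_of_ne h']
    rfl

lemma rr_repA (κ : Equiv.Perm (Fin j)) (g : Alt n) (f : V j n) :
    rr j n κ (repA j n g f) = repA j n g (rr j n κ f) := by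
  ext a
  rw [rr_apply, repA_apply, repA_apply, rr_apply, mv_rt]

lemma rr_dl (κ : Equiv.Perm (Fin j)) (a : Tup j n) :
    rr j n κ (CHAR.dl a) = CHAR.dl (rt κ⁻¹ a) := by
  ext b
  rw [rr_apply]
  have hiff : rt κ b = a ↔ b = rt κ⁻¹ a := by
    constructor
    · rintro rfl
      ext; simp
    · rintro rfl
      ext; simp
  simp only [CHAR.dl, PiLp.single_apply]
  by_cases hb : b = rt κ⁻¹ a
  · rw [if_pos hb, if_pos (hiff.2 hb)]
  · rw [if_neg hb, if_neg (fun h => hb (hiff.1 h))]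

/-- functions in `Lvl` invariant under the stabiliser of `a`, vanishing on the tuples `a σ`,
vanish -/
lemma vanish (hj : 2 * j + 2 ≤ n) (b : Tup j n) (f : V j n) (hf : f ∈ Lvl j n)
    (hinvf : ∀ h : Alt n, mv (h : Equiv.Perm (Fin n)) b = b → repA j n h f = f)
    (h0 : ∀ σ : Equiv.Perm (Fin j), f (rt σ b) = 0) : f = 0 := by
  classical
  ext a
  show f a = 0
  have hfL : ∀ (φ : Fin j → Fin n) (l : Fin j), ∑ y, ext0 f (Function.update φ l y) = 0 := hf
  -- invariance
  have hinv : ∀ c : Tup j n, (∀ l ∈ CHAR.DD a b, c l ∉ Set.range b) →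
      (∀ l ∉ CHAR.DD a b, c l = a l) → f c = f a := by
    intro c h1 h2
    let ι := Fin j ⊕ {l // l ∈ CHAR.DD a b}
    have hcard : Fintype.card ι + 2 ≤ n := by
      have : Fintype.card ι = j + #(CHAR.DD a b) := by
        simp [ι]
      have h3 : #(CHAR.DD a b) ≤ j := by
        have := Finset.card_le_card (Finset.subset_univ (CHAR.DD a b))
        simpa using this
      omega
    let e1 : ι ↪ Fin n := ⟨Sum.elim b (fun l => a l.1), by
      rintro (x | x) (y | y) hxy
      · simp only [Sum.elim_inl] at hxy; rw [b.injective hxy]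
      · simp only [Sum.elim_inl, Sum.elim_inr] at hxy
        exact absurd ⟨x, hxy⟩ (CHAR.mem_DD.1 y.2)
      · simp only [Sum.elim_inl, Sum.elim_inr] at hxy
        exact absurd ⟨y, hxy.symm⟩ (CHAR.mem_DD.1 x.2)
      · simp only [Sum.elim_inr] at hxy
        rw [Subtype.ext (a.injective hxy)]⟩
    let e2 : ι ↪ Fin n := ⟨Sum.elim b (fun l => c l.1), by
      rintro (x | x) (y | y) hxy
      · simp only [Sum.elim_inl] at hxy; rw [b.injective hxy]
      · simp only [Sum.elim_inl, Sum.elim_inr] at hxy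
        exact absurd ⟨x, hxy⟩ (h1 y.1 y.2)
      · simp only [Sum.elim_inl, Sum.elim_inr] at hxy
        exact absurd ⟨y, hxy.symm⟩ (h1 x.1 x.2)
      · simp only [Sum.elim_inr] at hxy
        rw [Subtype.ext (c.injective hxy)]⟩
    obtain ⟨h, hh⟩ := CHAR.trans_emb hcard e1 e2
    have hb : ∀ k, (h : Equiv.Perm (Fin n)) (b k) = b k := fun k => hh (Sum.inl k)
    have ha : ∀ l (hl : l ∈ CHAR.DD a b), (h : Equiv.Perm (Fin n)) (a l) = c l :=
      fun l hl => hh (Sum.inr ⟨l, hl⟩)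
    have hmb : mv (h : Equiv.Perm (Fin n)) b = b := by ext k; rw [mv_apply, hb]
    have hma : mv (h : Equiv.Perm (Fin n)) a = c := by
      ext l
      rw [mv_apply]
      by_cases hl : l ∈ CHAR.DD a b
      · rw [ha l hl]
      · have hl' := hl
        rw [CHAR.mem_DD] at hl'
        push Not at hl'
        obtain ⟨k, hk⟩ := hl'
        rw [h2 l hl, ← hk, hb]
    have hmb' : mv ((h⁻¹ : Alt n) : Equiv.Perm (Fin n)) b = b := by
      conv_lhs => rw [← hmb]
      rw [← mv_mul]
      simp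
    have h3 : repA j n h⁻¹ f = f := hinvf _ hmb'
    have h4 : repA j n h⁻¹ f a = f (mv (h : Equiv.Perm (Fin n)) a) := by
      rw [repA_apply]
      simp
    rw [h3, hma] at h4
    exact h4.symm
  set Y : Set (Fin n) := (Set.range b)ᶜ with hY
  have hn : n ≠ 0 := by omega
  have hflip := CHAR.S_flip hn hfL Y a (CHAR.DD a b) ∅ (Finset.disjoint_empty_right _)
  have hS1 : CHAR.S (ext0 f) (CHAR.wt (CHAR.DD a b) ∅ Y a) =
      ∑ c ∈ univ.filter (fun c : Tup j n => (∀ l ∈ CHAR.DD a b, c l ∉ Set.range b) ∧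
      ∀ l ∉ CHAR.DD a b, c l = a l), f c := by
    refine CHAR.S_wt f (CHAR.DD a b) a (fun y => y ∉ Set.range b) _ ?_ ?_
    · intro l hl y
      simp only [CHAR.wt, if_pos hl, hY, Set.mem_compl_iff]
    · intro l hl y
      simp [CHAR.wt, hl]
  have hS2 : CHAR.S (ext0 f) (CHAR.wt ∅ (CHAR.DD a b ∪ ∅) Y a) =
      ∑ c ∈ univ.filter (fun c : Tup j n => (∀ l ∈ CHAR.DD a b, c l ∈ Set.range b) ∧
      ∀ l ∉ CHAR.DD a b, c l = a l), f c := by
    refine CHAR.S_wt f (CHAR.DD a b) a (fun y => y ∈ Set.range b) _ ?_ ?_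
    · intro l hl y
      simp only [CHAR.wt, Finset.union_empty, Finset.notMem_empty, if_false, if_pos hl, hY,
        Set.mem_compl_iff]
      by_cases hy : y ∈ Set.range b <;> simp [hy]
    · intro l hl y
      simp [CHAR.wt, hl]
  rw [hS1, hS2] at hflip
  have h5 : ∑ c ∈ univ.filter (fun c : Tup j n => (∀ l ∈ CHAR.DD a b, c l ∉ Set.range b) ∧
      ∀ l ∉ CHAR.DD a b, c l = a l), f c =
      (#(univ.filter (fun c : Tup j n => (∀ l ∈ CHAR.DD a b, c l ∉ Set.range b) ∧
      ∀ l ∉ CHAR.DD a b, c l = a l)) : ℂ) * f a := by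
    rw [Finset.sum_congr rfl (fun c hc => ?_), Finset.sum_const, nsmul_eq_mul]
    simp only [Finset.mem_filter, Finset.mem_univ, true_and] at hc
    exact hinv c hc.1 hc.2
  have h6 : ∑ c ∈ univ.filter (fun c : Tup j n => (∀ l ∈ CHAR.DD a b, c l ∈ Set.range b) ∧
      ∀ l ∉ CHAR.DD a b, c l = a l), f c = 0 := by
    refine Finset.sum_eq_zero fun c hc => ?_
    simp only [Finset.mem_filter, Finset.mem_univ, true_and] at hc
    have hr : ∀ l, ∃ k, b k = c l := by
      intro l
      by_cases hl : l ∈ CHAR.DD a b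
      · exact hc.1 l hl
      · rw [hc.2 l hl]
        rw [CHAR.mem_DD] at hl
        push Not at hl
        exact hl
    choose σ hσ using hr
    have hinj : Function.Injective σ := by
      intro l l' h
      apply c.injective
      rw [← hσ, ← hσ, h]
    have hbij : Function.Bijective σ := Finite.injective_iff_bijective.1 hinj
    have hc' : c = rt (Equiv.ofBijective σ hbij) b := by
      ext l
      rw [rt_apply, Equiv.ofBijective_apply, hσ]
    rw [hc']
    exact h0 _
  rw [h5, h6, mul_zero] at hflip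
  rcases mul_eq_zero.1 hflip with h | h
  · exfalso
    have h7 : (#(univ.filter (fun c : Tup j n => (∀ l ∈ CHAR.DD a b, c l ∉ Set.range b) ∧
      ∀ l ∉ CHAR.DD a b, c l = a l))) = 0 := by exact_mod_cast h
    rw [Finset.card_eq_zero] at h7
    have h8 : a ∈ univ.filter (fun c : Tup j n => (∀ l ∈ CHAR.DD a b, c l ∉ Set.range b) ∧
      ∀ l ∉ CHAR.DD a b, c l = a l) :=
      Finset.mem_filter.2 ⟨Finset.mem_univ _, fun l hl => CHAR.mem_DD.1 hl, fun _ _ => rfl⟩
    rw [h7] at h8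
    exact absurd h8 (Finset.notMem_empty _)
  · exact h

/-- `∑_g c(g) ρ(g) P`, `P` the projection on `Lvl` -/
noncomputable def Bc (j n : ℕ) (c : Alt n → ℂ) : Module.End ℂ (V j n) :=
  ∑ g : Alt n, c g • (op (repA j n) g * Pr (Lvl j n))

lemma Bc_apply (c : Alt n → ℂ) (v : V j n) :
    Bc j n c v = ∑ g : Alt n, c g • repA j n g (Pr (Lvl j n) v) := by
  simp [Bc, LinearMap.sum_apply]

lemma Bc_mem (c : Alt n → ℂ) (v : V j n) : Bc j n c v ∈ Lvl j n := by
  rw [Bc_apply]
  exact Submodule.sum_mem _ fun g _ => Submodule.smul_mem _ _ (Lvl_inv j n g _ (Pr_mem _ _))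

lemma Bc_com (c : Alt n → ℂ) (hc : ∀ h g, c (h * g * h⁻¹) = c g) : Com (repA j n) (Bc j n c) := by
  intro h v
  rw [Bc_apply, Bc_apply, map_sum]
  rw [← Equiv.sum_comp (MulAut.conj h).toEquiv]
  refine Finset.sum_congr rfl fun g _ => ?_
  have e : (MulAut.conj h).toEquiv g = h * g * h⁻¹ := rfl
  rw [e, hc, map_smul, Pr_com (Lvl_inv j n) h v]
  congr 1
  have h1 : ∀ (x y : Alt n) (z : V j n), repA j n x (repA j n y z) = repA j n (x * y) z := by
    intro x y z
    rw [map_mul]; rfl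
  rw [h1, h1]
  congr 2
  group

lemma Bc_rr (c : Alt n → ℂ) (κ : Equiv.Perm (Fin j)) (v : V j n) :
    Bc j n c (rr j n κ v) = rr j n κ (Bc j n c v) := by
  rw [Bc_apply, Bc_apply, map_sum]
  refine Finset.sum_congr rfl fun g _ => ?_
  rw [map_smul, Pr_com (Lvl_rr j n) κ v, rr_repA]

/-- the function on `S_j` -/
noncomputable def bet (c : Alt n → ℂ) (a0 : Tup j n) (σ : Equiv.Perm (Fin j)) : ℂ :=
  Bc j n c (CHAR.dl a0) (rt σ a0)

lemma bet_conj (hj : j + 2 ≤ n) (c : Alt n → ℂ) (hc : ∀ h g, c (h * g * h⁻¹) = c g)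
    (a0 : Tup j n) (κ σ : Equiv.Perm (Fin j)) : bet c a0 (κ * σ * κ⁻¹) = bet c a0 σ := by
  obtain ⟨h, hh⟩ := TRANS hj a0 (rt κ a0)
  have e1 : CHAR.dl (rt κ a0) = repA j n h (CHAR.dl a0) := by
    rw [CHAR.rep_dl, hh]
  have e2 : CHAR.dl (rt κ a0) = rr j n κ⁻¹ (CHAR.dl a0) := by
    rw [rr_dl, inv_inv]
  have e3 : Bc j n c (CHAR.dl (rt κ a0)) (rt σ (rt κ a0)) = bet c a0 σ := by
    rw [e1, Bc_com c hc, ← hh, ← mv_rt, repA_apply, ← mv_mul, inv_mul_cancel, mv_one]
    rfl
  have e4 : Bc j n c (CHAR.dl (rt κ a0)) (rt σ (rt κ a0)) = bet c a0 (κ * σ * κ⁻¹) := by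
    rw [e2, Bc_rr, rr_apply, ← rt_mul, ← rt_mul]
    rfl
  rw [← e4, e3]

lemma Bc_zero (hj : 2 * j + 2 ≤ n) (c : Alt n → ℂ) (hc : ∀ h g, c (h * g * h⁻¹) = c g)
    (a0 : Tup j n) (h0 : ∀ σ, bet c a0 σ = 0) : Bc j n c = 0 := by
  have h1 : Bc j n c (CHAR.dl a0) = 0 := by
    refine vanish hj a0 _ (Bc_mem _ _) ?_ h0
    intro h hh
    rw [← Bc_com c hc, CHAR.rep_dl, hh]
  have h2 : ∀ a, Bc j n c (CHAR.dl a) = 0 := by
    intro a
    obtain ⟨h, hh⟩ := TRANS (by omega) a0 a
    rw [← hh, ← CHAR.rep_dl, Bc_com c hc, h1, map_zero]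
  refine (EuclideanSpace.basisFun (Tup j n) ℂ).toBasis.ext fun a => ?_
  simp only [OrthonormalBasis.coe_toBasis, EuclideanSpace.basisFun_apply, LinearMap.zero_apply]
  exact h2 a

lemma trace_Bc (W : Submodule ℂ (V j n)) (hL : W ≤ Lvl j n) (c : Alt n → ℂ) :
    LinearMap.trace ℂ _ (Pr W * Bc j n c) = ∑ g : Alt n, c g * chi (repA j n) W g := by
  unfold Bc
  rw [Finset.mul_sum, map_sum]
  refine Finset.sum_congr rfl fun g _ => ?_
  rw [mul_smul_comm, map_smul, smul_eq_mul]
  congr 1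
  unfold chi
  rw [← mul_assoc, LinearMap.trace_mul_comm, ← mul_assoc]
  congr 2
  refine LinearMap.ext fun v => ?_
  rw [Module.End.mul_apply]
  exact Pr_self (hL (Pr_mem W v))

theorem card_le (hj : 2 * j + 2 ≤ n) {N : ℕ} (W : Fin N → Submodule ℂ (V j n))
    (hirr : ∀ i, Irr (repA j n) (W i)) (hL : ∀ i, W i ≤ Lvl j n)
    (hne : ∀ i j', i ≠ j' → ¬ Iso (repA j n) (W i) (W j')) :
    N ≤ Nat.card (ConjClasses (Equiv.Perm (Fin j))) := by
  classical
  have hfin : Finite (ConjClasses (Equiv.Perm (Fin j))) := inferInstance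
  have : Fintype (ConjClasses (Equiv.Perm (Fin j))) := Fintype.ofFinite _
  have hjn : j ≤ n := by omega
  let a0 : Tup j n := Fin.castLEEmb hjn
  let c : Fin N → Alt n → ℂ := fun i g => conj (chi (repA j n) (W i) g)
  have hc : ∀ i h g, c i (h * g * h⁻¹) = c i g := by
    intro i h g
    simp only [c]
    rw [chi_conj (hirr i).2.1]
  let β : Fin N → (ConjClasses (Equiv.Perm (Fin j)) → ℂ) := fun i =>
    Quotient.lift (bet (c i) a0) (by
      intro a b hab
      obtain ⟨h, rfl⟩ := isConj_iff.mp hab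
      exact (bet_conj (by omega) (c i) (hc i) a0 h a).symm)
  have hβ : ∀ i g, β i (ConjClasses.mk g) = bet (c i) a0 g := fun i g => rfl
  have hli : LinearIndependent ℂ β := by
    rw [Fintype.linearIndependent_iff]
    intro x hx k
    let cc : Alt n → ℂ := fun g => ∑ i, x i * c i g
    have hcc : ∀ h g, cc (h * g * h⁻¹) = cc g := by
      intro h g
      simp only [cc, hc]
    have hB : Bc j n cc = ∑ i, x i • Bc j n (c i) := by
      refine LinearMap.ext fun v => ?_
      rw [Bc_apply, LinearMap.sum_apply]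
      simp only [LinearMap.smul_apply, Bc_apply, Finset.smul_sum, cc, Finset.sum_smul, smul_smul]
      rw [Finset.sum_comm]
    have hb : ∀ σ, bet cc a0 σ = 0 := by
      intro σ
      have h1 := congrFun hx (ConjClasses.mk σ)
      simp only [Finset.sum_apply, Pi.smul_apply, hβ, smul_eq_mul, Pi.zero_apply] at h1
      rw [← h1]
      simp only [bet, hB, LinearMap.sum_apply, LinearMap.smul_apply]
      simp
    have h0 := Bc_zero hj cc hcc a0 hb
    have h1 := trace_Bc (W k) (hL k) cc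
    rw [h0, mul_zero, map_zero] at h1
    have h2 : ∑ g : Alt n, cc g * chi (repA j n) (W k) g =
        x k * ∑ g : Alt n, chi (repA j n) (W k) g * conj (chi (repA j n) (W k) g) := by
      calc ∑ g : Alt n, cc g * chi (repA j n) (W k) g
          = ∑ i, x i * ∑ g : Alt n, chi (repA j n) (W k) g * conj (chi (repA j n) (W i) g) := by
            simp only [cc, c, Finset.sum_mul, Finset.mul_sum]
            rw [Finset.sum_comm]
            exact Finset.sum_congr rfl fun i _ => Finset.sum_congr rfl fun g _ => by ring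
        _ = x k * ∑ g : Alt n, chi (repA j n) (W k) g * conj (chi (repA j n) (W k) g) := by
            refine Finset.sum_eq_single k (fun i _ hik => ?_)
              (fun h => absurd (Finset.mem_univ k) h)
            rw [chi_orth (hirr i).2.1 (hirr k).2.1 (hne i k hik), mul_zero]
    rw [h2] at h1
    rcases mul_eq_zero.mp h1.symm with h | h
    · exact h
    · exfalso
      have h4 : ∑ g : Alt n, Complex.normSq (chi (repA j n) (W k) g) = 0 := by
        have h5 : ∀ g : Alt n, chi (repA j n) (W k) g * conj (chi (repA j n) (W k) g) =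
            ((Complex.normSq (chi (repA j n) (W k) g) : ℝ) : ℂ) := fun g => Complex.mul_conj _
        simp only [h5] at h
        exact_mod_cast h
      have h6 := (Finset.sum_eq_zero_iff_of_nonneg (fun g _ => Complex.normSq_nonneg _)).mp h4 1
        (Finset.mem_univ _)
      exact chi_one_ne (hirr k).1 (Complex.normSq_eq_zero.mp h6)
  have h := hli.fintype_card_le_finrank
  rw [Fintype.card_fin, Module.finrank_fintype_fun_eq_card] at h
  rw [Nat.card_eq_fintype_card]
  exact h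

end TYPESLVL

/-- the number of types of irreducible subspaces of `Lvl j n` is at most the number of conjugacy
classes of the symmetric group `S_j` -/
theorem TYPESLVL (j n : ℕ) (hj : 2 * j + 2 ≤ n) :
    ∃ (N : ℕ) (W : Fin N → Submodule ℂ (V j n)), N ≤ Nat.card (ConjClasses (Equiv.Perm (Fin j))) ∧
      (∀ i, Irr (repA j n) (W i) ∧ W i ≤ Lvl j n) ∧
      ∀ (r : ℕ) (x : Fin r → Alt n) (w : Fin r → ℝ) (c : ℝ), (∀ i, 0 ≤ w i) →
        (∀ i, ∀ v ∈ W i, c * ‖v‖ ^ 2 ≤ ∑ t, w t * ‖repA j n (x t) v - v‖ ^ 2) →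
        ∀ v ∈ Lvl j n, c * ‖v‖ ^ 2 ≤ ∑ t, w t * ‖repA j n (x t) v - v‖ ^ 2 :=
  TYPESLVL.types_gen (repA j n) (Lvl j n) (Lvl_inv j n) _
    (fun _ W h1 h2 h3 => TYPESLVL.card_le hj W h1 h2 h3)

end RC14
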